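import Mathlib
import Pool.Agent.CSLRad.Defs
import Pool.Agent.CSLRad.Final

/-!
# Hopenwasser's conjecture on the Jacobson radical of a CSL algebra

For every commutative subspace lattice `L` on a complex Hilbert space, the Jacobson radical of
`Alg L` is the intersection of the ideals `I_φ` over all characters `φ` of `C*(L)`.
-/

namespace Pool.Agent.Results.MP_b027ec_an.HopenwasserRadical

open Pool.Agent.CSLRad

/-- For every commutative subspace lattice `L` on a complex Hilbert space, the Jacobson radical of
`Alg L` equals the intersection of the ideals `I_φ`, `φ` running through the characters of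
`C*(L)`. -/
theorem result {H : Type*} [NormedAddCommGroup H] [InnerProductSpace ℂ H] [CompleteSpace H]
    (L : Set (H →L[ℂ] H)) (hL : IsCSL L) :
    ((Ring.jacobson (AlgCSL L) : Ideal (AlgCSL L)) : Set (AlgCSL L)) =
      ⋂ φ : Chars L, idealAt L φ :=
  jacobson_eq L hL

end Pool.Agent.Results.MP_b027ec_an.HopenwasserRadical
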